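import Pool.Agent.Helper88.MADR.Defs
import Pool.Agent.Helper15.Murre.Descent
import Pool.Agent.Helper58.MAD.Conv
import Pool.Agent.Helper58.MAD.Basic

/-!
# Local nilpotence over a finitely generated field from the conjectures over `k`
-/

open CategoryTheory MonoidalCategory Limits TensorProduct
open Pool.Agent.Helper15.Murre
open Pool.Agent.Helper58.MAD

universe w v u

set_option linter.unusedSectionVars false

namespace Pool.Agent.Helper88.MADR

variable {C : Type u} [Category.{v} C] [Preadditive C] [Linear ℚ C]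
  [MonoidalCategory C] [SymmetricCategory C] [MonoidalPreadditive C] [MonoidalLinear ℚ C]
  [RigidCategory C] [HasBinaryBiproducts C] [IsIdempotentComplete C]
  {F : Type w} [Field F] {W : MotivicHomology C F}
variable {C' : Type u} [Category.{v} C'] [Preadditive C'] [Linear ℚ C']
  [MonoidalCategory C'] [SymmetricCategory C'] [MonoidalPreadditive C'] [MonoidalLinear ℚ C']
  [RigidCategory C'] [HasBinaryBiproducts C'] [IsIdempotentComplete C']
  {W' : MotivicHomology C' F} {Φ : C ⥤ C'}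

/-- no maps from higher to lower weights -/
theorem tri_of_murreB (hB : ∀ (M : C) (D : CK W M), D.MurreB) {M : C} (D : CK W M) : D.Tri := by
  intro i j hij f
  apply name_injective (W := W)
  have h1 := hB _ (D.tensor D.dual)
  rw [CK.MurreB_iff] at h1
  have h1' := h1 0 (j - i) (by omega) (name W (D.p i ≫ f ≫ D.p j))
  have h2 : name W (D.p i ≫ f ≫ D.p j) ≫ (D.tensor D.dual).p (j - i)
      = name W (D.p i ≫ f ≫ D.p j) := by
    change _ ≫ (∑ a ∈ D.s, D.p a ⊗ₘ (D.p (-(j - i - a)))ᘁ) = _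
    rw [Preadditive.comp_sum]
    by_cases hj : j ∈ D.s
    · rw [Finset.sum_eq_single_of_mem j hj]
      · rw [name_comp]
        congr 1
        have : -(j - i - j) = i := by ring
        rw [this]
        simp only [Category.assoc, D.idem]
        rw [← Category.assoc, D.idem]
      · intro a _ ha
        rw [name_comp]
        simp only [Category.assoc]
        rw [D.orth j a (Ne.symm ha)]
        simp [name]
    · rw [D.p_eq_zero hj]
      simp [name]
  rw [← h2, h1']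

theorem pw_add' {N : C} (u : N ⟶ N) (m k : ℕ) : pw u (m + k) = pw u m ≫ pw u k := pw_add u m k

/-- the classes with zero restriction are stable -/
theorem ker_stable {N : C} {P : C'} {b : Φ.obj N ⟶ P} {g : N ⟶ N} {f : P ⟶ P}
    (h : Φ.map g ≫ b = b ≫ f) {A : C} (γ : A ⟶ N) (hγ : Φ.map γ ≫ b = 0) (m : ℕ) :
    Φ.map (γ ≫ pw g m) ≫ b = 0 := by
  have h1 : Φ.map (pw g m) ≫ b = b ≫ pw f m := by rw [pw_map]; exact pw_comp h m
  rw [Φ.map_comp, Category.assoc, h1, ← Category.assoc, hγ, zero_comp]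

/-- One step: a class in weights `≥ j` is moved to weights `> j` by a power of `g`, modulo classes
with zero restriction. -/
theorem step (hT : ∀ {M : C} (D : CK W M), D.Tri) (hD : PureD W)
    {N : C} (D : CK W N) {P : C'} (b : Φ.obj N ⟶ P) {V : C} (i : V ⟶ N) (hib : Φ.map i ≫ b = 0)
    (μ : N ⟶ V) (hμ : W.H.map (i ≫ μ ≫ i) = W.H.map i) (j l : ℤ) (G : N ⟶ N)
    (hG : ∀ x ∈ W.gr N j, ∃ v ∈ W.gr V j, (W.H.map G).hom x = (W.H.map i).hom v)
    (γ : W.CH l N) (hγ : ∀ c, c < j → γ ≫ D.p c = 0) :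
    ∃ δ : W.CH l N, (∀ c, c < j + 1 → δ ≫ D.p c = 0) ∧
      Φ.map (γ ≫ D.p j ≫ G - δ) ≫ b = 0 := by
  have hE : D.p j ≫ G ≫ D.p j = D.p j ≫ G ≫ D.p j ≫ μ ≫ i ≫ D.p j := by
    have h1 : D.p j ≫ (G ≫ D.p j - G ≫ D.p j ≫ μ ≫ i) ≫ D.p j = 0 := by
      have h2 : W.H.map (D.p j ≫ (G ≫ D.p j - G ≫ D.p j ≫ μ ≫ i) ≫ D.p j) = 0 := by
        apply W.hext
        intro k x hx
        rw [W.map_comp_apply, D.homology j k x hx]
        by_cases hk : k = j
        · subst hk
          rw [if_pos rfl]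
          obtain ⟨v, hv, hGv⟩ := hG x hx
          have hiv := W.map_gr i k v hv
          rw [W.map_comp_apply, W.map_sub_apply]
          simp only [W.map_comp_apply, hGv]
          have h3 : (W.H.map (D.p k)).hom ((W.H.map i).hom v) = (W.H.map i).hom v := by
            rw [D.homology k k _ hiv, if_pos rfl]
          rw [h3]
          have h4 := congrArg (fun t => t.hom v) hμ
          simp only [W.map_comp_apply] at h4
          rw [h4, sub_self, map_zero]
          rfl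
        · rw [if_neg hk, map_zero]
          rfl
      have h3 := NilAux.pureD_diag hD D (D.p j ≫ (G ≫ D.p j - G ≫ D.p j ≫ μ ≫ i) ≫ D.p j) j h2
      have h4 : D.p j ≫ (D.p j ≫ (G ≫ D.p j - G ≫ D.p j ≫ μ ≫ i) ≫ D.p j) ≫ D.p j =
          D.p j ≫ (G ≫ D.p j - G ≫ D.p j ≫ μ ≫ i) ≫ D.p j := by
        simp only [Category.assoc, D.idem]
        rw [← Category.assoc, D.idem]
      rw [← h4, h3]
    rw [Preadditive.sub_comp, Preadditive.comp_sub, sub_eq_zero] at h1
    simpa [D.idem] using h1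
  -- the class supported over the closed subset
  let ζ : W.CH l N := γ ≫ D.p j ≫ G ≫ D.p j ≫ μ ≫ i
  have hζ : Φ.map ζ ≫ b = 0 := by
    change Φ.map (γ ≫ D.p j ≫ G ≫ D.p j ≫ μ ≫ i) ≫ b = 0
    have : γ ≫ D.p j ≫ G ≫ D.p j ≫ μ ≫ i = (γ ≫ D.p j ≫ G ≫ D.p j ≫ μ) ≫ i := by
      simp only [Category.assoc]
    rw [this, Φ.map_comp, Category.assoc, hib, comp_zero]
  refine ⟨γ ≫ D.p j ≫ G - ζ, ?_, ?_⟩
  · intro c hc
    rw [Preadditive.sub_comp]
    rcases lt_or_eq_of_le (show c ≤ j by omega) with h | h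
    · have h1 : (γ ≫ D.p j ≫ G) ≫ D.p c = 0 := by
        simp only [Category.assoc]
        rw [hT D j c h G, comp_zero]
      have h2 : ζ ≫ D.p c = 0 := by
        change (γ ≫ D.p j ≫ G ≫ D.p j ≫ μ ≫ i) ≫ D.p c = 0
        have h3 := hT D j c h (G ≫ D.p j ≫ μ ≫ i)
        simp only [Category.assoc] at h3 ⊢
        rw [h3, comp_zero]
      rw [h1, h2, sub_zero]
    · subst h
      have h1 : (γ ≫ D.p c ≫ G) ≫ D.p c = γ ≫ (D.p c ≫ G ≫ D.p c) := by
        simp only [Category.assoc]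
      have h2 : ζ ≫ D.p c = γ ≫ (D.p c ≫ G ≫ D.p c ≫ μ ≫ i ≫ D.p c) := by
        change (γ ≫ D.p c ≫ G ≫ D.p c ≫ μ ≫ i) ≫ D.p c = _
        simp only [Category.assoc]
      rw [h1, h2, ← hE, sub_self]
  · rw [sub_sub_cancel]
    exact hζ

/-- classes of weight `≥ j₀` are killed by a power of `g`, modulo classes with zero restriction, if
there are no classes of weight `≥ J` -/
theorem high (B : BaseChange W W' Φ) (hT : ∀ {M : C} (D : CK W M), D.Tri) (hD : PureD W)
    {N : C} (D : CK W N) {P : C'} (b : Φ.obj N ⟶ P) {V : C} (i : V ⟶ N) (hib : Φ.map i ≫ b = 0)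
    (μ : N ⟶ V) (hμ : W.H.map (i ≫ μ ≫ i) = W.H.map i) (l : ℤ) (f : P ⟶ P) (g : N ⟶ N)
    (hgf : Φ.map g ≫ b = b ≫ f) (m : ℕ) (j₀ J : ℤ)
    (hJ : ∀ c, J ≤ c → ∀ γ : W.CH l N, γ ≫ D.p c = 0)
    (hG : ∀ j, j₀ ≤ j → j < J → ∀ x ∈ W.gr N j, ∃ v ∈ W.gr V j,
      (W.H.map (pw g m)).hom x = (W.H.map i).hom v) :
    ∀ (k : ℕ) (j : ℤ), j₀ ≤ j → J ≤ j + k → ∀ γ : W.CH l N,
      (∀ c, c < j → γ ≫ D.p c = 0) → ∃ M : ℕ, Φ.map (γ ≫ pw g M) ≫ b = 0 := by
  have hadd := B.additive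
  have hzero : ∀ j : ℤ, J ≤ j → ∀ γ : W.CH l N, (∀ c, c < j → γ ≫ D.p c = 0) →
      ∃ M : ℕ, Φ.map (γ ≫ pw g M) ≫ b = 0 := by
    intro j hj γ hγ
    have h0 : γ = 0 := by
      apply D.ext_comp
      intro c
      rw [zero_comp]
      rcases lt_or_ge c j with h | h
      · exact hγ c h
      · exact hJ c (by omega) γ
    refine ⟨0, ?_⟩
    rw [h0, zero_comp, Φ.map_zero, zero_comp]
  intro k
  induction k with
  | zero =>
    intro j _ hk γ hγ
    exact hzero j (by simpa using hk) γ hγ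
  | succ k ih =>
    intro j hj hk γ hγ
    by_cases hjJ : J ≤ j
    · exact hzero j hjJ γ hγ
    -- split off the component of weight `j`
    have hγ' : ∀ c, c < j + 1 → (γ - γ ≫ D.p j) ≫ D.p c = 0 := by
      intro c hc
      rw [Preadditive.sub_comp]
      rcases lt_or_eq_of_le (show c ≤ j by omega) with h | h
      · rw [hγ c h, Category.assoc, D.orth j c (by omega), comp_zero, sub_zero]
      · subst h
        rw [Category.assoc, D.idem, sub_self]
    obtain ⟨M₁, hM₁⟩ := ih (j + 1) (by omega) (by push_cast at hk ⊢; omega)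
      (γ - γ ≫ D.p j) hγ'
    obtain ⟨δ, hδ, hδb⟩ := step hT hD D b i hib μ hμ j l (pw g m) (hG j hj (by omega)) γ hγ
    obtain ⟨M₂, hM₂⟩ := ih (j + 1) (by omega) (by push_cast at hk ⊢; omega) δ hδ
    refine ⟨m + M₂ + M₁, ?_⟩
    have h1 : γ ≫ pw g (m + M₂ + M₁) = ((γ - γ ≫ D.p j) ≫ pw g M₁) ≫ pw g (m + M₂) +
        ((δ ≫ pw g M₂) ≫ pw g M₁ + ((γ ≫ D.p j ≫ pw g m - δ) ≫ pw g (M₂ + M₁))) := by
      have e1 : pw g (m + M₂ + M₁) = pw g M₁ ≫ pw g (m + M₂) := by
        rw [← pw_add, Nat.add_comm]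
      have e2 : pw g (m + M₂ + M₁) = pw g m ≫ pw g (M₂ + M₁) := by
        rw [← pw_add, Nat.add_assoc]
      have e3 : pw g (M₂ + M₁) = pw g M₂ ≫ pw g M₁ := pw_add _ _ _
      have e4 : (γ - γ ≫ D.p j) ≫ pw g (m + M₂ + M₁) =
          ((γ - γ ≫ D.p j) ≫ pw g M₁) ≫ pw g (m + M₂) := by
        rw [e1, Category.assoc]
      have e5 : (γ ≫ D.p j) ≫ pw g (m + M₂ + M₁) = (γ ≫ D.p j ≫ pw g m) ≫ pw g (M₂ + M₁) := by
        rw [e2]
        simp only [Category.assoc]
      have e6 : (δ ≫ pw g M₂) ≫ pw g M₁ = δ ≫ pw g (M₂ + M₁) := by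
        rw [e3, Category.assoc]
      rw [← e4, e6, Preadditive.sub_comp, Preadditive.sub_comp, e5]
      abel
    rw [h1, Φ.map_add, Preadditive.add_comp, ker_stable hgf _ hM₁, zero_add, Φ.map_add,
      Preadditive.add_comp, ker_stable hgf _ hM₂, zero_add]
    exact ker_stable hgf _ hδb _

/-- **Transfer.** If Murre's conjectures hold over `k` and the motives over `k` are semisimple up
to homological equivalence, then a correspondence `f` of `P = h(X)` which acts as zero on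
`H_j(P)`, `j > 2l`, is locally nilpotent on `CH_l(P)_hom`. -/
theorem locNil_model (B : BaseChange W W' Φ) (hA : ∀ M : C, MurreA W M)
    (hB : ∀ (M : C) (D : CK W M), D.MurreB) (hD : PureD W) (hR : Regular W)
    {P : C'} {t : ℕ∞} (hP : Spreads B t P) (l : ℤ) (f : P ⟶ P)
    (hf : ∀ j, 2 * l < j → ∀ x ∈ W'.gr P j, (W'.H.map f).hom x = 0)
    (α : Φ.obj (W.T l) ⟶ P) (hα : W'.H.map α = 0) : ∃ m : ℕ, α ≫ pw f m = 0 := by
  have hadd := B.additive
  obtain ⟨N, V, b, β, g, i, m, d, -, hβ, hgf, hib, hL⟩ := hP f l α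
  obtain ⟨D⟩ := hA N
  obtain ⟨μ, hμ⟩ := hR V N i
  have hT : ∀ {M : C} (D : CK W M), D.Tri := fun D => tri_of_murreB hB D
  -- weights `> 2l`
  have hG : ∀ j, 2 * l + 1 ≤ j → ∀ x ∈ W.gr N j, ∃ v ∈ W.gr V j,
      (W.H.map (pw g (1 + m))).hom x = (W.H.map i).hom v := by
    intro j hj x hx
    obtain ⟨v, hv, h1⟩ := hL j (fun k hk _ => hf k (by omega)) ((W.H.map g).hom x)
      (W.map_gr _ _ _ hx) (by
        change (W'.H.map b).hom (B.comp N ((W.H.map g).hom x)) = 0
        rw [B.comp_nat, ← W'.map_comp_apply, hgf, W'.map_comp_apply]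
        exact hf j (by omega) _ (W'.map_gr _ _ _ ((B.comp_gr N j x).1 hx)))
    refine ⟨v, hv, ?_⟩
    have h2 : pw g (1 + m) = g ≫ pw g m := by
      rw [pw_add]
      congr 1
      simp [pw]
    rw [h2, W.map_comp_apply, h1]
  obtain ⟨A₀, B₀, hAB⟩ := D.exists_bounds
  have hhigh : ∀ γ : W.CH l N, (∀ c, c < 2 * l + 1 → γ ≫ D.p c = 0) →
      ∃ M : ℕ, Φ.map (γ ≫ pw g M) ≫ b = 0 := by
    intro γ hγ
    refine high B hT hD D b i hib μ hμ l f g hgf (1 + m) (2 * l + 1) (B₀ + 1) ?_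
      (fun j hj _ => hG j hj) (B₀ + 1 - (2 * l + 1)).toNat (2 * l + 1) le_rfl
      (by have h2 := Int.self_le_toNat (B₀ + 1 - (2 * l + 1)); omega) γ hγ
    intro c hc γ
    by_contra h0
    have h1 := (hAB c (fun h => h0 (by rw [h, comp_zero]))).2
    omega
  -- the component of weight `2l`
  have hx : ∀ t : W.H.obj (W.T l), ∃ v ∈ W.gr V (2 * l),
      (W.H.map (β ≫ pw g m)).hom t = (W.H.map i).hom v := by
    intro t
    obtain ⟨v, hv, h1⟩ := hL (2 * l) (fun k hk _ => hf k (by omega)) ((W.H.map β).hom t)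
      (W.map_gr _ _ _ (W.mem_gr_tate l t)) (by
        change (W'.H.map b).hom (B.comp N ((W.H.map β).hom t)) = 0
        rw [B.comp_nat, ← W'.map_comp_apply, hβ, hα]
        rfl)
    exact ⟨v, hv, by rw [W.map_comp_apply, h1]⟩
  set β₁ : W.CH l N := β ≫ pw g m with hβ₁
  have hlow : ∀ c, c < 2 * l → ∀ γ : W.CH l N, γ ≫ D.p c = 0 := fun c hc γ =>
    (CK.MurreB_iff D).1 (hB N D) l c hc γ
  have hmid : β₁ ≫ D.p (2 * l) = β₁ ≫ D.p (2 * l) ≫ μ ≫ i ≫ D.p (2 * l) := by
    rw [← sub_eq_zero]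
    have h1 : (β₁ ≫ D.p (2 * l) - β₁ ≫ D.p (2 * l) ≫ μ ≫ i ≫ D.p (2 * l)) =
        (β₁ ≫ D.p (2 * l) - β₁ ≫ D.p (2 * l) ≫ μ ≫ i ≫ D.p (2 * l)) ≫ D.p (2 * l) := by
      rw [Preadditive.sub_comp]
      simp only [Category.assoc, D.idem]
    apply (CK.MurreD_iff D).1 (murreD_of_pureD hD D) l _ h1.symm
    apply W.hext
    intro k t _
    obtain ⟨v, hv, hGv⟩ := hx t
    have hiv := W.map_gr i (2 * l) v hv
    have h3 : (W.H.map (D.p (2 * l))).hom ((W.H.map i).hom v) = (W.H.map i).hom v := by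
      rw [D.homology _ _ _ hiv, if_pos rfl]
    have h4 := congrArg (fun t => t.hom v) hμ
    simp only [W.map_comp_apply] at h4
    rw [W.map_sub_apply]
    simp only [W.map_comp_apply] at hGv ⊢
    rw [hGv, h3, h4, h3, sub_self]
    rfl
  have hend : ∃ M : ℕ, Φ.map (β₁ ≫ pw g M) ≫ b = 0 := by
    let ζ : W.CH l N := β₁ ≫ D.p (2 * l) ≫ μ ≫ i
    have hζ : Φ.map ζ ≫ b = 0 := by
      have : ζ = (β₁ ≫ D.p (2 * l) ≫ μ) ≫ i := by
        change β₁ ≫ D.p (2 * l) ≫ μ ≫ i = _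
        simp only [Category.assoc]
      rw [this, Φ.map_comp, Category.assoc, hib, comp_zero]
    obtain ⟨M, hM⟩ := hhigh (β₁ - ζ) (by
      intro c hc
      rcases lt_or_eq_of_le (show c ≤ 2 * l by omega) with h | h
      · exact hlow c h _
      · subst h
        rw [Preadditive.sub_comp, hmid]
        change _ - (β₁ ≫ D.p (2 * l) ≫ μ ≫ i) ≫ D.p (2 * l) = 0
        simp only [Category.assoc, sub_self])
    refine ⟨M, ?_⟩
    have h1 : β₁ ≫ pw g M = (β₁ - ζ) ≫ pw g M + ζ ≫ pw g M := by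
      rw [Preadditive.sub_comp]; abel
    rw [h1, Φ.map_add, Preadditive.add_comp, hM, zero_add]
    exact ker_stable hgf _ hζ _
  obtain ⟨M, hM⟩ := hend
  refine ⟨m + M, ?_⟩
  have h1 : Φ.map (pw g (m + M)) ≫ b = b ≫ pw f (m + M) := by
    rw [pw_map]; exact pw_comp hgf _
  rw [← hβ, Category.assoc, ← h1, ← Category.assoc, ← Φ.map_comp, pw_add, ← Category.assoc]
  exact hM

/-- the same over the extension field -/
theorem strongNil_model (B : BaseChange W W' Φ) (hA : ∀ M : C, MurreA W M)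
    (hB : ∀ (M : C) (D : CK W M), D.MurreB) (hD : PureD W) (hR : Regular W)
    {P : C'} {t : ℕ∞} (hP : Spreads B t P) : StrongNil W' P := by
  intro f l hf α hα
  obtain ⟨m, hm⟩ := locNil_model B hA hB hD hR hP l f hf ((B.tate l).inv ≫ α) (by
    rw [Functor.map_comp, hα, comp_zero])
  refine ⟨m, ?_⟩
  have h1 := congrArg ((B.tate l).hom ≫ ·) hm
  simpa using h1

section ext

theorem StrongNil.retract {P Q : C} (R : Retract Q P) (h : StrongNil W P) : StrongNil W Q := by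
  intro f l hf α hα
  obtain ⟨m, hm⟩ := h (R.r ≫ f ≫ R.i) l (by
    intro j hj x hx
    rw [W.map_comp_apply, W.map_comp_apply, hf j hj _ (W.map_gr _ _ _ hx), map_zero])
    (α ≫ R.i) (by rw [Functor.map_comp, hα, zero_comp])
  refine ⟨m, ?_⟩
  have h1 : f ≫ R.i = R.i ≫ (R.r ≫ f ≫ R.i) := by rw [R.retract_assoc]
  have h2 : R.i ≫ pw (R.r ≫ f ≫ R.i) m = pw f m ≫ R.i := (pw_comp h1 m).symm
  rw [Category.assoc, h2] at hm
  have h3 := congrArg (· ≫ R.r) hm
  simpa [R.retract] using h3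

theorem StrongNil.twist {P : C} (h : StrongNil W P) (r : ℤ) : StrongNil W (P ⊗ W.T r) := by
  intro f l hf α hα
  let f' : P ⟶ P := (untwist W P r).inv ≫ (f ▷ W.T (-r)) ≫ (untwist W P r).hom
  obtain ⟨m, hm⟩ := h f' (l - r) (by
    intro j hj x hx
    simp only [f', W.map_comp_apply]
    rw [map_whisker_zero f (-r) j ?_ _ (W.map_gr _ _ _ hx), map_zero]
    intro y hy
    exact hf _ (by omega) y hy) (shiftCH W l r α) (shiftCH_hom l r α hα)
  refine ⟨m, ?_⟩
  have h1 : (untwist W P r).hom ≫ f' = (f ▷ W.T (-r)) ≫ (untwist W P r).hom := by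
    simp [f']
  have h2 : (untwist W P r).hom ≫ pw f' m = (pw f m ▷ W.T (-r)) ≫ (untwist W P r).hom := by
    have h3 := pw_comp h1.symm m
    rw [NilAux.pw_whisker] at h3
    exact h3.symm
  apply shiftCH_injective (W := W)
  rw [← hm]
  unfold shiftCH
  simp only [comp_whiskerRight, Category.assoc]
  rw [← h2]

/-- (B) -/
theorem StrongNil.murreB {P : C} (h : StrongNil W P) (D : CK W P) : D.MurreB := by
  rw [CK.MurreB_iff]
  intro l i hi α
  obtain ⟨m, hm⟩ := h (D.p i) l (fun j hj x hx => by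
    rw [D.homology i j x hx, if_neg (by omega)]) (α ≫ D.p i) (by
      apply W.hext
      intro j x _
      rw [W.map_comp_apply, D.homology i (2 * l) _ (W.map_gr _ _ _ (W.mem_gr_tate l x)),
        if_neg (by omega)]
      rfl)
  have h1 : ∀ m : ℕ, (α ≫ D.p i) ≫ pw (D.p i) m = α ≫ D.p i := by
    intro m
    induction m with
    | zero => simp [pw]
    | succ m ih =>
      rw [pw, ← Category.assoc, ih, Category.assoc, D.idem]
  rw [← h1 m, hm]

/-- (D) -/
theorem StrongNil.murreD {P : C} (h : StrongNil W P) (D : CK W P) : D.MurreD := by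
  rw [CK.MurreD_iff]
  intro l α h1 h2
  obtain ⟨m, hm⟩ := h (D.p (2 * l)) l (fun j hj x hx => by
    rw [D.homology _ j x hx, if_neg (by omega)]) α h2
  have h3 : ∀ m : ℕ, α ≫ pw (D.p (2 * l)) m = α := by
    intro m
    induction m with
    | zero => simp [pw]
    | succ m ih =>
      rw [pw, ← Category.assoc, ih, h1]
  rw [← h3 m, hm]

/-- (D*) -/
theorem locNil_of_strongNil (h : ∀ P : C, StrongNil W P) : LocNil W := by
  intro N θ hθ α hα
  exact h N θ 0 (fun j hj => hθ j (by omega)) α hα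

end ext

end Pool.Agent.Helper88.MADR
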