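import Pool.Agent.Helper88.MADR.Num
import Pool.Agent.Helper88.MADR.Transfer
import Pool.Agent.Helper58.MAD.Lift
import Pool.Agent.Helper58.MAD.Nil

/-!
# Motives over the algebraic closure of a finite field
-/

open CategoryTheory MonoidalCategory Limits TensorProduct
open Pool.Agent.Helper15.Murre
open Pool.Agent.Helper58.MAD

universe w v u

set_option linter.unusedSectionVars false

namespace Pool.Agent.Helper88.MADR

variable {C : Type u} [Category.{v} C] [Preadditive C] [Linear ℚ C]
  [MonoidalCategory C] [SymmetricCategory C] [MonoidalPreadditive C] [MonoidalLinear ℚ C]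
  [RigidCategory C] [HasBinaryBiproducts C] [IsIdempotentComplete C]
  {F : Type w} [Field F] {W : MotivicHomology C F} {M N : C}

/-- the Künneth projectors are polynomials in the Frobenius (Katz-Messing) -/
theorem Frobenius.kunnethHom (h : Frobenius W) (M : C) : KunnethHom W M := by
  classical
  obtain ⟨φ, c, P, -, hP, hco, -⟩ := h M 0 0
  obtain ⟨s, hs⟩ := exists_degrees W M
  intro i
  have h1 : IsCoprime (P i) (∏ j ∈ s.erase i, P j) := by
    apply IsCoprime.prod_right
    intro j hj
    exact hco i j (Finset.ne_of_mem_erase hj).symm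
  obtain ⟨a, b, hab⟩ := h1
  refine ⟨(Polynomial.aeval φ (b * ∏ j ∈ s.erase i, P j)).asHom, ?_⟩
  intro j x hx
  by_cases hji : j = i
  · subst hji
    rw [if_pos rfl]
    have h2 : b * ∏ k ∈ s.erase j, P k = 1 - a * P j := by rw [← hab]; ring
    rw [h2, map_sub, map_one, map_mul]
    have h3 : (1 - Polynomial.aeval φ a * Polynomial.aeval φ (P j) : End M).asHom =
        𝟙 M - (Polynomial.aeval φ (P j)).asHom ≫ (Polynomial.aeval φ a).asHom := rfl
    rw [h3, W.map_sub_apply, W.map_comp_apply, hP j x hx, map_zero, sub_zero, W.map_id_apply]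
  · rw [if_neg hji]
    by_cases hjs : j ∈ s
    · have h2 : b * ∏ k ∈ s.erase i, P k = (b * ∏ k ∈ (s.erase i).erase j, P k) * P j := by
        rw [mul_assoc, mul_comm _ (P j), Finset.mul_prod_erase]
        exact Finset.mem_erase.2 ⟨hji, hjs⟩
      rw [h2, map_mul]
      have h3 : (Polynomial.aeval φ (b * ∏ k ∈ (s.erase i).erase j, P k) *
          Polynomial.aeval φ (P j) : End M).asHom = (Polynomial.aeval φ (P j)).asHom ≫
            (Polynomial.aeval φ (b * ∏ k ∈ (s.erase i).erase j, P k)).asHom := rfl
      rw [h3, W.map_comp_apply, hP j x hx, map_zero]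
    · rw [hs j hjs x hx, map_zero]

/-- Murre's conjectures over `k` follow from rational = numerical, if the Künneth projectors are
algebraic -/
theorem RatNum.murreAll (h : RatNum W) (hK : ∀ M : C, KunnethHom W M) : MurreAll W := by
  intro M
  have hA := murreA_of_kunnethHom h.nilHom M (hK M)
  obtain ⟨D⟩ := hA
  exact ⟨⟨D⟩, murreC_of_murreB (fun M D => h.murreB D), D, h.murreB D,
    murreD_of_pureD h.pureD D⟩

end Pool.Agent.Helper88.MADR
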