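import Pool.Agent.Helper88.MADR.Transfer

/-!
# The length of the filtration over an extension field
-/

open CategoryTheory MonoidalCategory Limits TensorProduct
open Pool.Agent.Helper15.Murre
open Pool.Agent.Helper58.MAD

universe w v u

set_option linter.unusedSectionVars false

namespace Pool.Agent.Helper88.MADR

variable {C : Type u} [Category.{v} C] [Preadditive C] [Linear ℚ C]
  [MonoidalCategory C] [SymmetricCategory C] [MonoidalPreadditive C] [MonoidalLinear ℚ C]
  [RigidCategory C] [HasBinaryBiproducts C] [IsIdempotentComplete C]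
  {F : Type w} [Field F] {W : MotivicHomology C F}
variable {C' : Type u} [Category.{v} C'] [Preadditive C'] [Linear ℚ C']
  [MonoidalCategory C'] [SymmetricCategory C'] [MonoidalPreadditive C'] [MonoidalLinear ℚ C']
  [RigidCategory C'] [HasBinaryBiproducts C'] [IsIdempotentComplete C']
  {W' : MotivicHomology C' F} {Φ : C ⥤ C'}

/-- the filtration vanishes iff the Chow groups of high weight vanish -/
theorem length_iff (W : MotivicHomology C F) (r : ℕ) :
    Length W r ↔ ∀ (M : C) (D : CK W M) (l i : ℤ), 2 * l + r < i →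
      ∀ γ : W.CH l M, γ ≫ D.p i = 0 := by
  constructor
  · intro h M D l i hi γ
    have h1 := h M D l (i - 2 * l).toNat (by
      have : (r : ℤ) < (i - 2 * l).toNat := by
        rw [Int.toNat_of_nonneg (by omega)]; omega
      exact_mod_cast this)
    have h2 : γ ≫ D.p i ∈ D.Fil l ((i - 2 * l).toNat : ℤ) := by
      have h3 : 2 * l + ((i - 2 * l).toNat : ℤ) ≤ i := by
        rw [Int.toNat_of_nonneg (by omega)]; omega
      exact Submodule.mem_iSup_of_mem (⟨i, h3⟩ : {i' : ℤ // 2 * l + ((i - 2 * l).toNat : ℤ) ≤ i'})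
        (D.mem_CH.2 (by rw [Category.assoc, D.idem]))
    rw [h1] at h2
    simpa using h2
  · intro h M D l n hn
    have hn' : (r : ℤ) < n := by exact_mod_cast hn
    unfold CK.Fil
    rw [iSup_eq_bot]
    rintro ⟨i, hi⟩
    rw [eq_bot_iff]
    intro γ hγ
    have h1 := h M D l i (by omega) γ
    rw [D.mem_CH.1 hγ] at h1
    simp [h1]

/-- **Length.** If Murre's conjectures hold over `k`, the filtration has length `≤ r` over `k`, and
the motives over `k` are semisimple up to homological equivalence, then a correspondence `f` which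
acts as zero on `H_j(P)`, `2l ≤ j ≤ 2l + r + t`, is locally nilpotent on `CH_l(P)`. -/
theorem lengthNil_model (B : BaseChange W W' Φ) (hA : ∀ M : C, MurreA W M)
    (hB : ∀ (M : C) (D : CK W M), D.MurreB) (hD : PureD W) (hR : Regular W) {r t : ℕ}
    (hL : Length W r) {P : C'} (hP : Spreads B t P) : LengthNil W' ((r + t : ℕ) : ℕ∞) P := by
  intro f l hf α
  have hadd := B.additive
  obtain ⟨N, V, b, β, g, i, m, d, hd, hβ, hgf, hib, hL'⟩ := hP f l ((B.tate l).inv ≫ α)
  have hd' : d ≤ t := by exact_mod_cast hd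
  obtain ⟨D⟩ := hA N
  obtain ⟨μ, hμ⟩ := hR V N i
  have hT : ∀ {M : C} (D : CK W M), D.Tri := fun D => tri_of_murreB hB D
  have hf' : ∀ k : ℤ, 2 * l ≤ k → k ≤ 2 * l + r + t → ∀ y ∈ W'.gr P k,
      (W'.H.map f).hom y = 0 := by
    intro k h1 h2 y hy
    have h3 : (2 * l + ((k - 2 * l).toNat : ℤ)) = k := by
      rw [Int.toNat_of_nonneg (by omega)]; omega
    refine hf (k - 2 * l).toNat ?_ y (by rw [h3]; exact hy)
    have h4 : (k - 2 * l).toNat ≤ r + t := by omega
    exact_mod_cast h4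
  have hG : ∀ j, 2 * l ≤ j → j < 2 * l + r + 1 → ∀ x ∈ W.gr N j, ∃ v ∈ W.gr V j,
      (W.H.map (pw g (1 + m))).hom x = (W.H.map i).hom v := by
    intro j hj hj' x hx
    obtain ⟨v, hv, h1⟩ := hL' j (fun k hk hk' => hf' k (by omega) (by omega))
      ((W.H.map g).hom x) (W.map_gr _ _ _ hx) (by
        change (W'.H.map b).hom (B.comp N ((W.H.map g).hom x)) = 0
        rw [B.comp_nat, ← W'.map_comp_apply, hgf, W'.map_comp_apply]
        exact hf' j (by omega) (by omega) _ (W'.map_gr _ _ _ ((B.comp_gr N j x).1 hx)))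
    refine ⟨v, hv, ?_⟩
    have h2 : pw g (1 + m) = g ≫ pw g m := by
      rw [pw_add]
      congr 1
      simp [pw]
    rw [h2, W.map_comp_apply, h1]
  obtain ⟨M, hM⟩ := high B hT hD D b i hib μ hμ l f g hgf (1 + m) (2 * l) (2 * l + r + 1)
    (fun c hc γ => (length_iff W r).1 hL N D l c (by omega) γ) hG (r + 1) (2 * l) le_rfl
    (by push_cast; omega) β (fun c hc => (CK.MurreB_iff D).1 (hB N D) l c hc β)
  refine ⟨M, ?_⟩
  have h1 : Φ.map (pw g M) ≫ b = b ≫ pw f M := by
    rw [pw_map]; exact pw_comp hgf _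
  have h2 : ((B.tate l).inv ≫ α) ≫ pw f M = 0 := by
    rw [← hβ, Category.assoc, ← h1, ← Category.assoc, ← Φ.map_comp]
    exact hM
  have h3 := congrArg ((B.tate l).hom ≫ ·) h2
  simpa using h3

theorem LengthNil.retract {r : ℕ∞} {P Q : C} (R : Retract Q P) (h : LengthNil W r P) :
    LengthNil W r Q := by
  intro f l hf α
  obtain ⟨m, hm⟩ := h (R.r ≫ f ≫ R.i) l (by
    intro n hn x hx
    rw [W.map_comp_apply, W.map_comp_apply, hf n hn _ (W.map_gr _ _ _ hx), map_zero])
    (α ≫ R.i)
  refine ⟨m, ?_⟩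
  have h1 : f ≫ R.i = R.i ≫ (R.r ≫ f ≫ R.i) := by rw [R.retract_assoc]
  have h2 : R.i ≫ pw (R.r ≫ f ≫ R.i) m = pw f m ≫ R.i := (pw_comp h1 m).symm
  rw [Category.assoc, h2] at hm
  have h3 := congrArg (· ≫ R.r) hm
  simpa [R.retract] using h3

theorem LengthNil.twist {r : ℕ∞} {P : C} (h : LengthNil W r P) (q : ℤ) :
    LengthNil W r (P ⊗ W.T q) := by
  intro f l hf α
  let f' : P ⟶ P := (untwist W P q).inv ≫ (f ▷ W.T (-q)) ≫ (untwist W P q).hom
  obtain ⟨m, hm⟩ := h f' (l - q) (by
    intro n hn x hx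
    simp only [f', W.map_comp_apply]
    rw [map_whisker_zero f (-q) _ ?_ _ (W.map_gr _ _ _ hx), map_zero]
    intro y hy
    refine hf n hn y ?_
    have h1 : 2 * (l - q) + (n : ℤ) - 2 * (-q) = 2 * l + n := by ring
    rw [← h1]
    exact hy) (shiftCH W l q α)
  refine ⟨m, ?_⟩
  have h1 : (untwist W P q).hom ≫ f' = (f ▷ W.T (-q)) ≫ (untwist W P q).hom := by
    simp [f']
  have h2 : (untwist W P q).hom ≫ pw f' m = (pw f m ▷ W.T (-q)) ≫ (untwist W P q).hom := by
    have h3 := pw_comp h1.symm m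
    rw [NilAux.pw_whisker] at h3
    exact h3.symm
  apply shiftCH_injective (W := W)
  rw [← hm]
  unfold shiftCH
  simp only [comp_whiskerRight, Category.assoc]
  rw [← h2]

theorem length_of_lengthNil {r : ℕ} (h : ∀ P : C, LengthNil W r P) : Length W r := by
  rw [length_iff]
  intro M D l i hi γ
  obtain ⟨m, hm⟩ := h M (D.p i) l (fun n hn x hx => by
    have hn' : (n : ℤ) ≤ r := by exact_mod_cast hn
    rw [D.homology i _ x hx, if_neg (by omega)]) (γ ≫ D.p i)
  have h1 : ∀ m : ℕ, (γ ≫ D.p i) ≫ pw (D.p i) m = γ ≫ D.p i := by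
    intro m
    induction m with
    | zero => simp [pw]
    | succ m ih =>
      rw [pw, ← Category.assoc, ih, Category.assoc, D.idem]
  rw [← h1 m, hm]

/-- the length descends -/
theorem Length.descend (B : BaseChange W W' Φ) {r : ℕ∞} (h : Length W' r) : Length W r := by
  have hfaith := B.faithful
  have hadd := B.additive
  intro M D l n hn
  rw [eq_bot_iff]
  intro γ hγ
  rw [D.mem_Fil] at hγ
  have h1 := h (Φ.obj M) (D.baseChange B) l n hn
  have h2 : (B.tate l).hom ≫ Φ.map γ ∈ (D.baseChange B).Fil l n := by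
    rw [CK.mem_Fil]
    intro i hi
    have h3 : (D.baseChange B).p i = Φ.map (D.p i) := rfl
    rw [h3, Category.assoc, ← Φ.map_comp, hγ i hi, Φ.map_zero, comp_zero]
  rw [h1] at h2
  have h3 : (B.tate l).hom ≫ Φ.map γ = 0 := h2
  have h4 : Φ.map γ = 0 := by
    have := congrArg ((B.tate l).inv ≫ ·) h3
    simpa using this
  exact Φ.map_injective (by rw [h4, Φ.map_zero])

end Pool.Agent.Helper88.MADR
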