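import Pool.Agent.Helper88.MADR.Setting
import Pool.Agent.Helper88.MADR.Len
import Pool.Agent.Helper88.MADR.Frob

/-!
# Murre's conjectures over all fields from those over the closure of the prime field
-/

open CategoryTheory MonoidalCategory Limits TensorProduct
open Pool.Agent.Helper15.Murre Pool.Agent.Helper15.MADR
open Pool.Agent.Helper58.MAD

universe w v u

set_option linter.unusedSectionVars false

namespace Pool.Agent.Helper88.MADR

section one

variable {C : Type u} [Category.{v} C] [Preadditive C] [Linear ℚ C]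
  [MonoidalCategory C] [SymmetricCategory C] [MonoidalPreadditive C] [MonoidalLinear ℚ C]
  [RigidCategory C] [HasBinaryBiproducts C] [IsIdempotentComplete C]
  {F : Type w} [Field F] {W : MotivicHomology C F}

/-- Murre's conjectures from local nilpotence and the Künneth conjecture -/
theorem murreAll_of_strongNil (h : ∀ P : C, StrongNil W P) (hK : ∀ P : C, KunnethHom W P) :
    MurreAll W := by
  have hN : NilHom W := nilHom_of_locNil (locNil_of_strongNil h)
  intro M
  obtain ⟨D⟩ := murreA_of_kunnethHom hN M (hK M)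
  exact ⟨⟨D⟩, murreC_of_murreB (fun M D => (h M).murreB D), D, (h M).murreB D, (h M).murreD D⟩

variable {C' : Type u} [Category.{v} C'] [Preadditive C'] [Linear ℚ C']
  [MonoidalCategory C'] [SymmetricCategory C'] [MonoidalPreadditive C'] [MonoidalLinear ℚ C']
  [RigidCategory C'] [HasBinaryBiproducts C'] [IsIdempotentComplete C']
  {W' : MotivicHomology C' F} {Φ : C ⥤ C'}

theorem StrongNil.descend (B : BaseChange W W' Φ) {P : C} (h : StrongNil W' (Φ.obj P)) :
    StrongNil W P := by
  have hadd := B.additive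
  have hfaith := B.faithful
  intro f l hf α hα
  obtain ⟨m, hm⟩ := h (Φ.map f) l (by
    intro j hj x hx
    obtain ⟨y, rfl⟩ := (B.comp P).surjective x
    rw [← B.comp_nat, hf j hj y ((B.comp_gr P j y).2 hx), map_zero])
    ((B.tate l).hom ≫ Φ.map α) (by
      apply W'.hext
      intro j x _
      rw [W'.map_comp_apply]
      obtain ⟨y, hy⟩ := (B.comp (W.T l)).surjective ((W'.H.map (B.tate l).hom).hom x)
      rw [← hy, ← B.comp_nat, hα]
      exact map_zero _)
  refine ⟨m, ?_⟩
  apply Φ.map_injective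
  rw [Φ.map_comp, pw_map, Φ.map_zero]
  have h1 := congrArg ((B.tate l).inv ≫ ·) hm
  simpa using h1

theorem KunnethHom.descend (B : BaseChange W W' Φ) (hd : KunnethDescends W' Φ) {P : C}
    (h : MurreA W' (Φ.obj P)) : KunnethHom W P := by
  obtain ⟨D⟩ := h
  intro i
  obtain ⟨y, hy⟩ := hd P D i
  refine ⟨y, ?_⟩
  intro j x hx
  apply (B.comp P).injective
  rw [B.comp_nat, hy, D.homology i j _ ((B.comp_gr P j x).1 hx)]
  split_ifs
  · rfl
  · exact (map_zero _).symm

end one

section two

variable {F : Type w} [Field F]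

theorem murreB_of_murreAll {M : Motives.{w, v, u} F} (h : MurreAll M.W) (N : M.C) (D : CK M.W N) :
    D.MurreB :=
  murreB_of_murreC (fun M => (h M).2.1) D

/-- the motives over an algebraically closed field -/
theorem strongNil_closed {M M' : Motives.{w, v, u} F} {Var : Type u} {h : Var → M'.C} {t : ℕ∞}
    (H : HasModels M M' h t)
    (hgen : ∀ N : M'.C, ∃ (X : Var) (m : ℤ), Nonempty (Retract N (h X ⊗ M'.W.T m)))
    (hM : MurreAll M.W) (hN : HomNum M.W) :
    (∀ P : M'.C, StrongNil M'.W P) ∧ (∀ P : M'.C, KunnethHom M'.W P) := by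
  obtain ⟨Φ, B, hX⟩ := H
  have hR : Reg M.W := hN.reg fun N => signConj_of_murreA (hM N).1
  refine ⟨fun P => ?_, fun P => ?_⟩
  · obtain ⟨X, m, ⟨R⟩⟩ := hgen P
    exact StrongNil.retract R (StrongNil.twist (strongNil_model B (fun N => (hM N).1)
      (murreB_of_murreAll hM) (pureD_of_murreAll hM) hR (hX X).1) m)
  · obtain ⟨X, m, ⟨R⟩⟩ := hgen P
    obtain ⟨S⟩ := (hX X).2.2
    exact KunnethHom.retract R (KunnethHom.twist
      (S.toSpecialisation.kunneth (kunnethHom_of_murreA (hM _).1) hR) m)

theorem length_closed {M M' : Motives.{w, v, u} F} {Var : Type u} {h : Var → M'.C} {t : ℕ∞}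
    (H : HasModels M M' h t)
    (hgen : ∀ N : M'.C, ∃ (X : Var) (m : ℤ), Nonempty (Retract N (h X ⊗ M'.W.T m)))
    (hM : MurreAll M.W) (hN : HomNum M.W) {r : ℕ∞} (hL : Length M.W r) :
    Length M'.W (r + t) := by
  obtain ⟨Φ, B, hX⟩ := H
  have hR : Reg M.W := hN.reg fun N => signConj_of_murreA (hM N).1
  intro N D l n hn
  have hne : r + t ≠ ⊤ := ne_top_of_lt hn
  obtain ⟨r, rfl⟩ := ENat.ne_top_iff_exists.1 (fun h : r = ⊤ => hne (by rw [h, top_add]))
  obtain ⟨t, rfl⟩ := ENat.ne_top_iff_exists.1 (fun h : t = ⊤ => hne (by rw [h, add_top]))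
  have h1 : Length M'.W ((r + t : ℕ) : ℕ∞) := by
    apply length_of_lengthNil
    intro P
    obtain ⟨X, m, ⟨R⟩⟩ := hgen P
    exact LengthNil.retract R (LengthNil.twist (lengthNil_model B (fun N => (hM N).1)
      (murreB_of_murreAll hM) (pureD_of_murreAll hM) hR hL (hX X).1) m)
  exact h1 N D l n (by exact_mod_cast hn)

end two

end Pool.Agent.Helper88.MADR
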