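import Pool.Agent.Helper88.MADR.Assembly
import Pool.Agent.Helper84.MADR.E1
import Pool.Agent.Helper84.MADR.E2

/-!
# Murre's conjectures over all fields of one characteristic
-/

open CategoryTheory MonoidalCategory Limits TensorProduct
open Pool.Agent.Helper15.Murre Pool.Agent.Helper15.MADR
open Pool.Agent.Helper58.MAD

universe w v u

set_option linter.unusedSectionVars false

namespace Pool.Agent.Helper88.MADR

section one

variable {C : Type u} [Category.{v} C] [Preadditive C] [Linear ℚ C]
  [MonoidalCategory C] [SymmetricCategory C] [MonoidalPreadditive C] [MonoidalLinear ℚ C]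
  [RigidCategory C] [HasBinaryBiproducts C] [IsIdempotentComplete C]
  {F : Type w} [Field F] {W : MotivicHomology C F}

theorem ratNum_of (hF : Frobenius W) (hM : MurreAll W) (hN : HomNum W) : RatNum W :=
  Pool.Agent.Helper84.MADR.ratNum_of_murreAll hF hM hN

theorem RatNum.homNum (h : RatNum W) : HomNum W := by
  intro l M α hα
  have hadd := W.additive
  rw [h M l α hα, Functor.map_zero]

theorem RatNum.length (h : RatNum W) : Length W 0 := by
  have h0 : ((0 : ℕ) : ℕ∞) = 0 := rfl
  rw [← h0, length_iff]
  intro M D l i hi γ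
  apply h.cycle
  apply W.hext
  intro j x hx
  rw [W.map_comp_apply, D.homology i (2 * l) _ (W.map_gr _ _ _ (W.mem_gr_tate l x)),
    if_neg (by push_cast at hi; omega)]
  rfl

end one

section two

variable {F : Type w} [Field F]

theorem homNum_closed {M M' : Motives.{w, v, u} F} {Var : Type u} {h : Var → M'.C} {t : ℕ∞}
    (H : HasModels M M' h t)
    (hgen : ∀ N : M'.C, ∃ (X : Var) (m : ℤ), Nonempty (Retract N (h X ⊗ M'.W.T m)))
    (hN : HomNum M.W) : HomNum M'.W := by
  obtain ⟨Φ, B, hX⟩ := H
  exact Pool.Agent.Helper84.MADR.homNum_of_fibred B hN h (fun X => (hX X).2.1) hgen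

theorem homNum_closure {M M' : Motives.{w, v, u} F} (H : IsClosure M M') (h : HomNum M'.W) :
    HomNum M.W := by
  obtain ⟨Φ, ⟨B⟩, -, hd⟩ := H
  exact Pool.Agent.Helper84.MADR.HomNum.descend B hd h

theorem Length.mono {M : Motives.{w, v, u} F} {r s : ℕ∞} (h : Length M.W r) (hrs : r ≤ s) :
    Length M.W s := fun N D l n hn => h N D l n (lt_of_le_of_lt hrs hn)

variable (G : Setting.{w, v, u} F)

/-- **Murre's conjectures and `hom = num` over all fields.** -/
theorem Setting.holds_iff (r : ℕ∞) :
    Holds (G.mot G.base) r ↔ ∀ K, Holds (G.mot K) (r + G.trdeg K) := by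
  constructor
  · rintro ⟨hM, hN, hL⟩ K
    obtain ⟨K', hK', ht, hcl⟩ := G.closure K
    have H := G.models K' hK'
    obtain ⟨hS, hKu⟩ := strongNil_closed H G.generated hM hN
    have hM' : MurreAll (G.mot K').W := murreAll_of_strongNil hS hKu
    have hN' : HomNum (G.mot K').W := homNum_closed H G.generated hN
    have hL' := length_closed H G.generated hM hN hL
    rw [ht] at hL'
    have hN'' := homNum_closure hcl hN'
    obtain ⟨Φ, ⟨B⟩, hd, -⟩ := hcl
    refine ⟨murreAll_of_strongNil (fun P => (hS _).descend B)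
      (fun P => KunnethHom.descend B hd (hM' _).1), hN'', hL'.descend B⟩
  · intro h
    have := h G.base
    rwa [G.trdeg_base, add_zero] at this

/-- In positive characteristic. -/
theorem Setting.frobenius_iff (hF : Frobenius (G.mot G.base).W) :
    [RatNum (G.mot G.base).W, MurreAll (G.mot G.base).W ∧ HomNum (G.mot G.base).W,
      ∀ K, MurreAll (G.mot K).W ∧ HomNum (G.mot K).W ∧ Length (G.mot K).W (G.trdeg K)].TFAE := by
  tfae_have 1 → 3 := by
    intro h K
    have h1 := (G.holds_iff 0).1 ⟨h.murreAll hF.kunnethHom, h.homNum, h.length⟩ K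
    rwa [zero_add] at h1
  tfae_have 3 → 2 := fun h => ⟨(h G.base).1, (h G.base).2.1⟩
  tfae_have 2 → 1 := fun h => ratNum_of hF h.1 h.2
  tfae_finish

end two

end Pool.Agent.Helper88.MADR
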