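import Pool.Agent.Helper58.MAD.Defs

/-!
# Smooth projective models of the varieties over an extension field
-/

open CategoryTheory MonoidalCategory Limits TensorProduct
open Pool.Agent.Helper15.Murre
open Pool.Agent.Helper58.MAD

universe w v u

namespace Pool.Agent.Helper88.MADR

variable {C : Type u} [Category.{v} C] [Preadditive C] [Linear ℚ C]
  [MonoidalCategory C] [SymmetricCategory C] [RigidCategory C] {F : Type w} [Field F]
  {C' : Type u} [Category.{v} C'] [Preadditive C'] [Linear ℚ C']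
  [MonoidalCategory C'] [SymmetricCategory C'] [RigidCategory C']

/-- Let `b : Φ N ⟶ P`, `f : P ⟶ P`, `u : N ⟶ N`, `i : V ⟶ N`. If `f = 0` on `H_k(P)` for all
`j < k ≤ j + d`, then `u_*` maps the classes `x ∈ H_j(N)` with `b_* x = 0` into `i_* H_j(V)`. -/
def KillsFibreZero {W : MotivicHomology C F} {W' : MotivicHomology C' F} {Φ : C ⥤ C'}
    (B : BaseChange W W' Φ) {N V : C} {P : C'} (b : Φ.obj N ⟶ P) (f : P ⟶ P) (u : N ⟶ N)
    (i : V ⟶ N) (d : ℕ) : Prop :=
  ∀ j : ℤ, (∀ k : ℤ, j < k → k ≤ j + d → ∀ y ∈ W'.gr P k, (W'.H.map f).hom y = 0) →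
    ∀ x ∈ W.gr N j, (W'.H.map b).hom ((B.comparison.hom.app N).hom x) = 0 →
      ∃ v ∈ W.gr V j, (W.H.map u).hom x = (W.H.map i).hom v

/-- `C`, `C'` stand for the motives over an algebraically closed field `k` and an algebraically
closed extension `K` of `k` of transcendence degree `t`, `Φ` for the base change functor, and
`P = h(X)` for a smooth projective variety `X` over `K`.
`X`, a correspondence `f` of `X` and a cycle `α` on `X` are defined over the function field
`k(S) ⊆ K` of a variety `S` over `k`, of dimension `d ≤ t`. Let `π : Y ⟶ S` be a smooth projective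
model of `X`, `N = h(Y)(-d)`, `b` the restriction to `X`, `β` the closure of the cycle `α` and `g`
the closure of the correspondence `f`. Let `U` be a dense affine part of `S` over which everything
is smooth, and `i : V ⟶ N` the push-forward from a resolution of the part of `Y` outside of `U`.
On `π⁻¹(U)` a class `x ∈ H_j(N)` is filtered (Leray filtration) by classes in
`H^a(U, H_(j+a)(X))`, `0 ≤ a ≤ d`, and its component for `a = 0` is the restriction `b_* x`.
If `f = 0` on `H_(j+a)(X)` for all `0 < a ≤ d` and `b_* x = 0` then `g^m x` vanishes on `π⁻¹(U)`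
for `m = d + 1`, that is, it comes from `H_j(V)`. (In positive characteristic `Y` is an alteration
of such a model.) -/
def Spreads {W : MotivicHomology C F} {W' : MotivicHomology C' F} {Φ : C ⥤ C'}
    (B : BaseChange W W' Φ) (t : ℕ∞) (P : C') : Prop :=
  ∀ (f : P ⟶ P) (l : ℤ) (α : Φ.obj (W.T l) ⟶ P),
    ∃ (N V : C) (b : Φ.obj N ⟶ P) (β : W.CH l N) (g : N ⟶ N) (i : V ⟶ N) (m d : ℕ),
      (d : ℕ∞) ≤ t ∧ Φ.map β ≫ b = α ∧ Φ.map g ≫ b = b ≫ f ∧ Φ.map i ≫ b = 0 ∧
        KillsFibreZero B b f (pw g m) i d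

/-- In the same situation let `N = h(Y)(-d)`, `N' = h(Y)`, `b` the restriction to `X`, `b'` the
push-forward `h(X) ⟶ h(Y_K)`, and `s` the intersection with a fibre `X_s` of `Y` over a point of
`U` over `k`, which is algebraically equivalent to `X` in `Y_K`. If `x ∈ H_*(N)` and
`s_* x = 0` then the restriction of `x` to `X_s` is zero, and so is the restriction to `X`: the
restrictions of the classes on `Y` are the invariants of the monodromy in `H_*(X_s)` and
the intersection form is nondegenerate on the invariants (Deligne). -/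
def Fibred {W : MotivicHomology C F} {W' : MotivicHomology C' F} {Φ : C ⥤ C'}
    (B : BaseChange W W' Φ) (P : C') : Prop :=
  ∀ (l : ℤ) (α : Φ.obj (W.T l) ⟶ P),
    ∃ (N N' : C) (b : Φ.obj N ⟶ P) (b' : P ⟶ Φ.obj N') (β : W.CH l N) (s : N ⟶ N'),
      Φ.map β ≫ b = α ∧ W'.H.map (b ≫ b') = W'.H.map (Φ.map s) ∧
      ∀ x : W.H.obj N, (W.H.map s).hom x = 0 → (W'.H.map b).hom ((B.comparison.hom.app N).hom x) = 0

/-- `C`, `C'` stand for the motives over a field and over its algebraic closure: the average `β₀`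
over the conjugates of a cycle `β` has the same intersection numbers with the cycles which are
defined over the field. -/
def NumbersDescend (W : MotivicHomology C F) (Φ : C ⥤ C') : Prop :=
  ∀ (M : C) (l : ℤ) (β : Φ.obj M ⟶ Φ.obj (W.T l)), ∃ β₀ : M ⟶ W.T l,
    ∀ α : W.CH l M, Φ.map α ≫ β = Φ.map (α ≫ β₀)

/-- Semisimplicity, as for numerical equivalence: every morphism `i` has a quasi-inverse, up to
homological equivalence. -/
def Regular (W : MotivicHomology C F) : Prop :=
  ∀ (V N : C) (i : V ⟶ N), ∃ μ : N ⟶ V, W.H.map (i ≫ μ ≫ i) = W.H.map i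

/-- If `f` is zero on `H_j(P)` for all `j > 2l`, then `f` is locally nilpotent on `CH_l(P)_hom`. -/
def StrongNil (W : MotivicHomology C F) (P : C) : Prop :=
  ∀ (f : P ⟶ P) (l : ℤ), (∀ j, 2 * l < j → ∀ x ∈ W.gr P j, (W.H.map f).hom x = 0) →
    ∀ α : W.CH l P, W.H.map α = 0 → ∃ m : ℕ, α ≫ pw f m = 0

/-- The filtration of Murre is of length at most `r`: `F^(n) CH_l(M) = 0` for all `n > r`. -/
def Length (W : MotivicHomology C F) (r : ℕ∞) : Prop :=
  ∀ (M : C) (D : CK W M) (l : ℤ) (n : ℕ), r < n → D.Fil l n = ⊥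

/-- If `f` is zero on `H_j(P)` for all `2l ≤ j ≤ 2l + r`, then `f` is locally nilpotent on
`CH_l(P)`. -/
def LengthNil (W : MotivicHomology C F) (r : ℕ∞) (P : C) : Prop :=
  ∀ (f : P ⟶ P) (l : ℤ), (∀ n : ℕ, n ≤ r → ∀ x ∈ W.gr P (2 * l + n), (W.H.map f).hom x = 0) →
    ∀ α : W.CH l P, ∃ m : ℕ, α ≫ pw f m = 0

/-- Murre's conjectures (A)-(D) for all motives. -/
def Murre (W : MotivicHomology C F) : Prop :=
  ∀ M : C, MurreA W M ∧ MurreC W M ∧ ∃ D : CK W M, D.MurreB ∧ D.MurreD

/-- Rational and numerical equivalence coincide: a cycle `α ∈ CH_l(M)` whose intersection numbers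
`α ≫ β` with all `β : M ⟶ 1(l)` are zero is zero. -/
def RatNum (W : MotivicHomology C F) : Prop :=
  ∀ (M : C) (l : ℤ) (α : W.CH l M), (∀ β : M ⟶ W.T l, α ≫ β = 0) → α = 0

/-- Homological and numerical equivalence coincide. -/
def HomEqNum (W : MotivicHomology C F) : Prop :=
  ∀ (l : ℤ) (M : C) (α : W.CH l M), (∀ β : M ⟶ W.T l, α ≫ β = 0) → W.H.map α = 0

/-- The Frobenius endomorphism and the Weil conjectures, for the motives over the algebraic closure
of a finite field: the motive `M` and the cycle `α ∈ CH_l(M)` are defined over a finite field with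
`q` elements, `φ` is the Frobenius endomorphism of `M`, `c = q^l`, and `P i` is the characteristic
polynomial of `φ` on `H_i(M)`, whose roots have absolute value `q^(i/2)`. -/
def Frobenius (W : MotivicHomology C F) : Prop :=
  ∀ (M : C) (l : ℤ) (α : W.CH l M), ∃ (φ : End M) (c : ℚ) (P : ℤ → Polynomial ℚ),
    α ≫ φ.asHom = c • α ∧
    (∀ i, ∀ x ∈ W.gr M i, (W.H.map (Polynomial.aeval φ (P i)).asHom).hom x = 0) ∧
    (∀ i j, i ≠ j → IsCoprime (P i) (P j)) ∧ ∀ i, i ≠ 2 * l → (P i).eval c ≠ 0

end Pool.Agent.Helper88.MADR
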