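import Pool.Agent.Helper88.MADR.Defs
import Pool.Agent.Helper15.MAD.TraceA
import Pool.Agent.Helper58.MAD.Conv
import Pool.Agent.Helper58.MAD.Basic

/-!
# Consequences of `rational equivalence = numerical equivalence`
-/

open CategoryTheory MonoidalCategory Limits TensorProduct
open Pool.Agent.Helper15.Murre
open Pool.Agent.Helper58.MAD

universe w v u

set_option linter.unusedSectionVars false

namespace Pool.Agent.Helper88.MADR

variable {C : Type u} [Category.{v} C] [Preadditive C] [Linear ℚ C]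
  [MonoidalCategory C] [SymmetricCategory C] [MonoidalPreadditive C] [MonoidalLinear ℚ C]
  [RigidCategory C] [HasBinaryBiproducts C] [IsIdempotentComplete C]
  {F : Type w} [Field F] {W : MotivicHomology C F} {M N : C}

/-- homologically trivial cycles are zero -/
theorem RatNum.cycle (h : RatNum W) {l : ℤ} (α : W.CH l M) (hα : W.H.map α = 0) : α = 0 := by
  apply h M l α
  intro β
  apply W.endTate_eq_zero l
  rw [Functor.map_comp, hα, zero_comp]

/-- homologically trivial morphisms are zero -/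
theorem RatNum.end' (h : RatNum W) (f : M ⟶ M) (hf : W.H.map f = 0) : f = 0 := by
  apply name_injective (W := W)
  apply h.cycle
  have h1 : W.H.map (f ▷ (Mᘁ)) = 0 := by
    have := W.H_tensor_zero f (𝟙 (Mᘁ)) hf
    rwa [tensorHom_id] at this
  unfold name
  rw [Functor.map_comp, Functor.map_comp, h1, comp_zero, comp_zero]

theorem RatNum.hom (h : RatNum W) (f : M ⟶ N) (hf : W.H.map f = 0) : f = 0 := by
  have h1 : (biprod.fst ≫ f ≫ biprod.inr : M ⊞ N ⟶ M ⊞ N) = 0 := by
    apply h.end'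
    rw [Functor.map_comp, Functor.map_comp, hf, zero_comp, comp_zero]
  have h2 := congrArg (fun t => biprod.inl ≫ t ≫ biprod.snd) h1
  simpa using h2

theorem RatNum.nilHom (h : RatNum W) : NilHom W := by
  intro N x hx
  refine ⟨1, ?_⟩
  rw [h.end' x hx]
  simp [pw]

theorem RatNum.pureD (h : RatNum W) : PureD W := by
  intro N _
  rw [eq_bot_iff]
  intro α hα
  exact h.cycle α hα

theorem RatNum.murreB (h : RatNum W) (D : CK W M) : D.MurreB := by
  rw [CK.MurreB_iff]
  intro l i hi α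
  apply h.cycle
  apply W.hext
  intro j x hx
  rw [W.map_comp_apply, D.homology i (2 * l) _ (W.map_gr _ _ _ (W.mem_gr_tate l x)),
    if_neg (by omega)]
  rfl

/-- the element of `End M` attached to a functional on `M ⊗ Mᘁ` -/
theorem exists_eval (e : M ⊗ Mᘁ ⟶ 𝟙_ C) :
    ∃ b : M ⟶ M, e = (b ▷ (Mᘁ)) ≫ (β_ M (Mᘁ)).hom ≫ ε_ M (Mᘁ) := by
  let e' : Mᘁ ⊗ M ⟶ 𝟙_ C := (β_ (Mᘁ) M).hom ≫ e
  let t : M ⟶ M ⊗ 𝟙_ C := tensorLeftHomEquiv M M (Mᘁ) (𝟙_ C) e'
  have h1 : e' = (tensorLeftHomEquiv M M (Mᘁ) (𝟙_ C)).symm t := by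
    rw [Equiv.symm_apply_apply]
  refine ⟨t ≫ (ρ_ M).hom, ?_⟩
  have h2 : e' = (Mᘁ ◁ (t ≫ (ρ_ M).hom)) ≫ ε_ M (Mᘁ) := by
    rw [h1]
    simp only [tensorLeftHomEquiv, Equiv.coe_fn_symm_mk, MonoidalCategory.whiskerLeft_comp,
      Category.assoc]
    congr 1
    monoidal
  have h3 : e = (β_ M (Mᘁ)).hom ≫ e' := by
    change e = (β_ M (Mᘁ)).hom ≫ (β_ (Mᘁ) M).hom ≫ e
    rw [SymmetricCategory.symmetry_assoc]
  rw [h3, h2, ← Category.assoc, ← Category.assoc]
  congr 1
  rw [BraidedCategory.braiding_naturality_left]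

/-- the categorical trace -/
theorem ptr_unit (c : M ⟶ M) :
    ptr (𝟙_ C) (𝟙_ C) M ((λ_ M).hom ≫ c ≫ (λ_ M).inv) =
      η_ M (Mᘁ) ≫ (c ▷ (Mᘁ)) ≫ (β_ M (Mᘁ)).hom ≫ ε_ M (Mᘁ) := by
  unfold ptr
  simp only [comp_whiskerRight, Category.assoc, MonoidalCategory.whiskerLeft_comp]
  monoidal

theorem str_smul_one (q : ℚ) : W.str (q • 𝟙 (𝟙_ C)) = (q : F) := by
  have hfin := W.finite (𝟙_ C)
  unfold MotivicHomology.str
  have h3 : W.sgn (𝟙_ C) ∘ₗ (W.H.map (q • 𝟙 (𝟙_ C))).hom = (q : F) • LinearMap.id := by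
    ext x
    rw [LinearMap.comp_apply, W.map_smul_apply, W.map_id_apply, map_smul,
      W.sgn_apply (W.unit_mem x)]
    simp
  rw [h3, map_smul, LinearMap.trace_id]
  have h4 : Module.finrank F (W.H.obj (𝟙_ C)) = 1 := by
    rw [← W.tateRank 0]
    exact (LinearEquiv.finrank_eq (W.H.mapIso W.tateZero).toLinearEquiv).symm
  rw [h4]
  simp

/-- the trace form on `End M` is nondegenerate -/
theorem RatNum.nondeg (h : RatNum W) (a : M ⟶ M) (ha : ∀ b : M ⟶ M, W.str (a ≫ b) = 0) :
    a = 0 := by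
  have hF := W.charZero
  apply name_injective (W := W)
  apply h
  intro β
  obtain ⟨b, hb⟩ := exists_eval (β ≫ W.tateZero.hom)
  have h1 : name W a ≫ β ≫ W.tateZero.hom = W.tateZero.hom ≫ (η_ M (Mᘁ) ≫ ((a ≫ b) ▷ (Mᘁ)) ≫
      (β_ M (Mᘁ)).hom ≫ ε_ M (Mᘁ)) := by
    rw [hb]
    unfold name
    simp only [comp_whiskerRight, Category.assoc]
  have h2 : η_ M (Mᘁ) ≫ ((a ≫ b) ▷ (Mᘁ)) ≫ (β_ M (Mᘁ)).hom ≫ ε_ M (Mᘁ) = 0 := by
    rw [← ptr_unit]
    obtain ⟨q, hq⟩ := W.endUnit (ptr (𝟙_ C) (𝟙_ C) M ((λ_ M).hom ≫ (a ≫ b) ≫ (λ_ M).inv))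
    have h3 := W.str_ptr (𝟙_ C) M ((λ_ M).hom ≫ (a ≫ b) ≫ (λ_ M).inv)
    have h4 : W.str ((λ_ M).hom ≫ (a ≫ b) ≫ (λ_ M).inv) = W.str (a ≫ b) := by
      rw [W.str_comm]
      simp
    rw [h4, ha b, hq, str_smul_one] at h3
    have h5 : q = 0 := by exact_mod_cast h3
    rw [hq, h5, zero_smul]
  have h5 : name W a ≫ β ≫ W.tateZero.hom = 0 := by rw [h1, h2, comp_zero]
  have h6 := congrArg (· ≫ W.tateZero.inv) h5
  simpa using h6

/-- the supertrace, as a linear functional on the operators of the homology -/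
noncomputable def strL (W : MotivicHomology C F) (M : C) :
    Module.End F (W.H.obj M) →ₗ[F] F :=
  (LinearMap.trace F (W.H.obj M)) ∘ₗ (LinearMap.mulLeft F (W.sgn M : Module.End F (W.H.obj M)))

theorem str_eq (a : M ⟶ M) : W.str a = strL W M (W.H.map a).hom := rfl

/-- nilpotent endomorphisms have supertrace zero -/
theorem str_nilpotent (a : M ⟶ M) (m : ℕ) (ha : pw a m = 0) : W.str a = 0 := by
  have hfin := W.finite M
  have h1 : IsNilpotent (W.sgn M ∘ₗ (W.H.map a).hom : Module.End F (W.H.obj M)) := by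
    refine ⟨m, ?_⟩
    have hc : Commute (W.sgn M : Module.End F (W.H.obj M)) (W.H.map a).hom := by
      ext x
      exact W.sgn_map a x
    have h2 : (W.sgn M ∘ₗ (W.H.map a).hom : Module.End F (W.H.obj M)) =
        (W.sgn M : Module.End F (W.H.obj M)) * (W.H.map a).hom := rfl
    rw [h2, hc.mul_pow]
    have h3 : ((W.H.map a).hom : Module.End F (W.H.obj M)) ^ m = 0 := by
      have h4 : ∀ m : ℕ, ((W.H.map a).hom : Module.End F (W.H.obj M)) ^ m =
          (W.H.map (pw a m)).hom := by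
        intro m
        induction m with
        | zero =>
          ext x
          exact (W.map_id_apply x).symm
        | succ m ih =>
          ext x
          rw [pow_succ', ih]
          exact (W.map_comp_apply (pw a m) a x).symm
      rw [h4, ha]
      ext x
      exact W.map_zero_apply x
    rw [h3, mul_zero]
  unfold MotivicHomology.str
  have h2 := LinearMap.isNilpotent_trace_of_isNilpotent h1
  exact h2.eq_zero

theorem str_smul (q : ℚ) (a : M ⟶ M) : W.str (q • a) = (q : F) * W.str a := by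
  rw [str_eq, str_eq]
  have h1 : (W.H.map (q • a)).hom = (q : F) • (W.H.map a).hom := by
    ext x
    exact W.map_smul_apply q a x
  rw [h1, map_smul, smul_eq_mul]

/-- the rational supertrace -/
noncomputable def strQ (W : MotivicHomology C F) (a : M ⟶ M) : ℚ := (W.str_rat M a).choose

theorem strQ_cast (a : M ⟶ M) : ((strQ W a : ℚ) : F) = W.str a :=
  (W.str_rat M a).choose_spec.symm

theorem strQ_add (a b : M ⟶ M) : strQ W (a + b) = strQ W a + strQ W b := by
  have hF := W.charZero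
  have h : ((strQ W (a + b) : ℚ) : F) = ((strQ W a + strQ W b : ℚ) : F) := by
    push_cast
    rw [strQ_cast, strQ_cast, strQ_cast, W.str_add]
  exact_mod_cast h

theorem strQ_smul (q : ℚ) (a : M ⟶ M) : strQ W (q • a) = q * strQ W a := by
  have hF := W.charZero
  have h : ((strQ W (q • a) : ℚ) : F) = ((q * strQ W a : ℚ) : F) := by
    push_cast
    rw [strQ_cast, strQ_cast, str_smul]
  exact_mod_cast h

/-- `End M` is a finite-dimensional `ℚ`-algebra -/
theorem RatNum.finite (h : RatNum W) (M : C) : Module.Finite ℚ (M ⟶ M) := by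
  classical
  have hF := W.charZero
  have hfin := W.finite M
  obtain ⟨t, ht, hts⟩ := (Submodule.fg_span_iff_fg_span_finset_subset (R := F)
    (Set.range fun a : M ⟶ M => (W.H.map a).hom)).1 (IsNoetherian.noetherian _)
  have hc : ∀ x : t, ∃ a : M ⟶ M, (W.H.map a).hom = x.1 := fun x => ht x.2
  choose c hc using hc
  let T : (M ⟶ M) →ₗ[ℚ] (t → ℚ) :=
    { toFun := fun a x => strQ W (a ≫ c x)
      map_add' := by
        intro a b
        ext x
        simp only [Preadditive.add_comp, Pi.add_apply, strQ_add]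
      map_smul' := by
        intro q a
        ext x
        simp only [Linear.smul_comp, Pi.smul_apply, strQ_smul, smul_eq_mul, RingHom.id_apply] }
  apply Module.Finite.of_injective T
  rw [injective_iff_map_eq_zero]
  intro a ha
  apply h.nondeg a
  intro b
  have hb : (W.H.map b).hom ∈ Submodule.span F (t : Set (Module.End F (W.H.obj M))) := by
    rw [← hts]
    exact Submodule.subset_span ⟨b, rfl⟩
  have key : ∀ X ∈ Submodule.span F (t : Set (Module.End F (W.H.obj M))),
      strL W M (X * ((W.H.map a).hom : Module.End F (W.H.obj M))) = 0 := by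
    intro X hX
    induction hX using Submodule.span_induction with
    | mem X hX =>
      have h1 : strQ W (a ≫ c ⟨X, hX⟩) = 0 := congrFun ha ⟨X, hX⟩
      have h2 : W.str (a ≫ c ⟨X, hX⟩) = 0 := by rw [← strQ_cast, h1]; simp
      rw [str_eq] at h2
      have h3 : (W.H.map (a ≫ c ⟨X, hX⟩)).hom = X * ((W.H.map a).hom : Module.End F _) := by
        ext x
        rw [W.map_comp_apply, hc]
        rfl
      rw [← h3]
      exact h2
    | zero => rw [zero_mul, map_zero]
    | add X Y _ _ hX hY => rw [add_mul, map_add, hX, hY, add_zero]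
    | smul q X _ hX => rw [smul_mul_assoc, map_smul, hX, smul_zero]
  have h3 : (W.H.map (a ≫ b)).hom = ((W.H.map b).hom : Module.End F _) *
      ((W.H.map a).hom : Module.End F _) := by
    ext x
    rw [W.map_comp_apply]
    rfl
  rw [str_eq, h3]
  exact key _ hb

/-- a finite-dimensional algebra whose elements are detected by a trace which vanishes on
nilpotent elements is von Neumann regular -/
theorem exists_quasi_inverse {R : Type*} [Ring R] [IsArtinianRing R] (tr : R → ℚ)
    (h1 : ∀ x, IsNilpotent x → tr x = 0) (h2 : ∀ a, (∀ b, tr (b * a) = 0) → a = 0) (a : R) :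
    ∃ b, a * b * a = a := by
  have hJ : Ring.jacobson R = ⊥ := by
    rw [eq_bot_iff]
    intro x hx
    have hnil := IsSemiprimaryRing.isNilpotent (R := R)
    obtain ⟨n, hn⟩ := hnil
    apply h2
    intro b
    apply h1
    refine ⟨n, ?_⟩
    have : (b * x) ^ n ∈ (Ring.jacobson R) ^ n := Ideal.pow_mem_pow (Ideal.mul_mem_left _ _ hx) n
    rw [hn] at this
    simpa using this
  have hss : IsSemisimpleRing R := IsArtinianRing.isSemisimpleRing_iff_jacobson.2 hJ
  obtain ⟨K, hK⟩ := exists_isCompl (Ideal.span {a} : Submodule R R)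
  have h3 : (1 : R) ∈ (Ideal.span {a} : Submodule R R) ⊔ K := by
    rw [hK.sup_eq_top]; trivial
  obtain ⟨x, hx, y, hy, hxy⟩ := Submodule.mem_sup.1 h3
  obtain ⟨b, rfl⟩ := Ideal.mem_span_singleton'.1 hx
  refine ⟨b, ?_⟩
  have h4 : a * y = a - a * (b * a) := by
    have h5 : a * 1 = a * (b * a + y) := by rw [hxy]
    rw [mul_one, mul_add] at h5
    rw [eq_sub_iff_add_eq, add_comm]
    exact h5.symm
  have h6 : a * y ∈ (Ideal.span {a} : Submodule R R) := by
    rw [h4]
    apply Submodule.sub_mem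
    · exact Ideal.subset_span rfl
    · rw [← mul_assoc]
      exact Ideal.mem_span_singleton'.2 ⟨a * b, rfl⟩
  have h7 : a * y ∈ K := K.smul_mem a hy
  have h8 : a * y = 0 := Submodule.disjoint_def.1 hK.disjoint _ h6 h7
  rw [h8] at h4
  rw [mul_assoc]
  exact (sub_eq_zero.1 h4.symm).symm

/-- semisimplicity of the numerical motives (Jannsen): every morphism has a quasi-inverse -/
theorem RatNum.quasi_inverse (h : RatNum W) {V N : C} (i : V ⟶ N) :
    ∃ μ : N ⟶ V, i ≫ μ ≫ i = i := by
  let M : C := V ⊞ N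
  have hfin : Module.Finite ℚ (End M) := h.finite M
  have hart : IsArtinianRing (End M) := IsArtinianRing.of_finite ℚ (End M)
  let q : End M := (biprod.fst ≫ i ≫ biprod.inr : M ⟶ M)
  obtain ⟨w, hw⟩ := exists_quasi_inverse (R := End M) (fun a => strQ W (M := M) a)
    (by
      rintro x ⟨m, hm⟩
      have hF := W.charZero
      have h1 : W.str (M := M) x = 0 := by
        apply str_nilpotent (M := M) x m
        have := pw_eq_pow (N := M) x m
        rw [hm] at this
        exact this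
      have h2 : ((strQ W (M := M) x : ℚ) : F) = 0 := by rw [strQ_cast, h1]
      exact_mod_cast h2)
    (by
      intro a ha
      apply h.nondeg (M := M) a
      intro b
      have h1 : strQ W (M := M) (a ≫ b) = 0 := ha b
      rw [← strQ_cast, h1]
      simp) q
  have hw' : (q : M ⟶ M) ≫ (w : M ⟶ M) ≫ (q : M ⟶ M) = q := by
    have h1 : (q * w * q : End M) = (q : M ⟶ M) ≫ (w : M ⟶ M) ≫ (q : M ⟶ M) := rfl
    rw [← h1, hw]
  refine ⟨biprod.inr ≫ (w : M ⟶ M) ≫ biprod.fst, ?_⟩
  have h2 := congrArg (fun t => biprod.inl ≫ t ≫ biprod.snd) hw'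
  have h3 : (q : M ⟶ M) = biprod.fst ≫ i ≫ biprod.inr := rfl
  rw [h3] at h2
  simpa using h2

theorem RatNum.regular (h : RatNum W) : Regular W := by
  intro V N i
  obtain ⟨μ, hμ⟩ := h.quasi_inverse i
  exact ⟨μ, by rw [hμ]⟩

end Pool.Agent.Helper88.MADR
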