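import Pool.Agent.Helper88.MADR.Main

/-!
# Murre's conjectures over all fields and over the algebraic closure of the prime field
-/

open CategoryTheory MonoidalCategory Limits
open Pool.Agent.Helper15.Murre Pool.Agent.Helper15.MADR
open Pool.Agent.Helper58.MAD Pool.Agent.Helper88.MADR

universe w v u

namespace Pool.Agent.Helper88.MADR.PrimeFieldArchive

/-- Let `k₀` be the algebraic closure of the prime field. Murre's conjectures (A)-(D) for all
motives, `hom = num` and `F^n CH_l = 0` for `n > r` hold over `k₀` if and only if over all fields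
`K` Murre's conjectures (A)-(D), `hom = num` and `F^n CH_l = 0` for `n > r + trdeg K` hold. In
positive characteristic they are all equivalent to `rational = numerical` over `k₀`. -/
theorem primeField {F : Type w} [Field F] (G : Setting.{w, v, u} F) :
    (∀ r : ℕ∞, Holds (G.mot G.base) r ↔ ∀ K, Holds (G.mot K) (r + G.trdeg K)) ∧
      (Frobenius (G.mot G.base).W →
        [RatNum (G.mot G.base).W, Holds (G.mot G.base) ⊤,
          ∀ K, Holds (G.mot K) (G.trdeg K)].TFAE) := by
  refine ⟨G.holds_iff, fun hF => ?_⟩
  tfae_have 1 → 3 := by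
    intro h K
    have h1 := (G.holds_iff 0).1 ⟨h.murreAll hF.kunnethHom, h.homNum, h.length⟩ K
    rwa [zero_add] at h1
  tfae_have 3 → 2 := fun h => ⟨(h G.base).1, (h G.base).2.1, fun _ _ _ _ hn => absurd hn (by simp)⟩
  tfae_have 2 → 1 := fun h => ratNum_of hF h.1 h.2.1
  tfae_finish

end Pool.Agent.Helper88.MADR.PrimeFieldArchive
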