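import Pool.Agent.Helper88.MADR.Defs
import Pool.Agent.Helper15.MADR.Inv

/-!
# Specialisation and the global invariant cycle theorem
-/

open CategoryTheory MonoidalCategory Limits TensorProduct
open Pool.Agent.Helper15.Murre
open Pool.Agent.Helper58.MAD

universe w v u

namespace Pool.Agent.Helper88.MADR

section one

variable {C : Type u} [Category.{v} C] [Preadditive C] [Linear ℚ C]
  [MonoidalCategory C] [SymmetricCategory C] [RigidCategory C] {F : Type w} [Field F]

/-- The class of a correspondence `f : M ⟶ N` in `CH_0(N ⊗ Mᘁ)`. -/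
def classOf (W : MotivicHomology C F) {M N : C} (f : M ⟶ N) : W.CH 0 (N ⊗ Mᘁ) :=
  W.tateZero.hom ≫ η_ M (Mᘁ) ≫ f ▷ (Mᘁ)

/-- `p` acts on the homology of `P` as the projector onto `H_i(P)`. -/
def ActsAsProjector (W : MotivicHomology C F) {P : C} (p : P ⟶ P) (i : ℤ) : Prop :=
  ∀ j, ∀ x ∈ W.gr P j, (W.H.map p).hom x = if j = i then x else 0

/-- The classes on `P ⊗ Pᘁ` of the Künneth projectors of `P` are in the image of `r_*`. -/
def KunnethLifts (W : MotivicHomology C F) {P M : C} (r : M ⟶ P ⊗ Pᘁ) : Prop :=
  ∀ (i : ℤ) (p : P ⟶ P), ActsAsProjector W p i →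
    ∀ t : W.H.obj (W.T 0), ∃ y : W.H.obj M, (W.H.map r).hom y = (W.H.map (classOf W p)).hom t

end one

section two

variable {C : Type u} [Category.{v} C] [Preadditive C] [Linear ℚ C]
  [MonoidalCategory C] [SymmetricCategory C] [RigidCategory C] {F : Type w} [Field F]
  {C' : Type u} [Category.{v} C'] [Preadditive C'] [Linear ℚ C']
  [MonoidalCategory C'] [SymmetricCategory C'] [RigidCategory C']

/-- If the correspondences `f₀` of `P₀` and `f` of `P` are the restrictions `r_* β`, `b_* β` of a
cycle `β` on `M`, then they act in the same way on homology, `H_*(P₀)` and `H_*(P)` being identified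
by `sp`. -/
def Compatible {W : MotivicHomology C F} {W' : MotivicHomology C' F} {Φ : C ⥤ C'}
    (B : BaseChange W W' Φ) {P₀ M : C} {P : C'} (r : M ⟶ P₀ ⊗ P₀ᘁ) (b : Φ.obj M ⟶ P ⊗ Pᘁ)
    (sp : W.H.obj P₀ ≃ₗ[F] W'.H.obj P) : Prop :=
  ∀ (β : W.CH 0 M) (f₀ : P₀ ⟶ P₀) (f : P ⟶ P), β ≫ r = classOf W f₀ →
    (B.tate 0).hom ≫ Φ.map β ≫ b = classOf W' f →
      ∀ x, (W'.H.map f).hom (sp x) = sp ((W.H.map f₀).hom x)

/-- `C`, `C'` stand for the motives over an algebraically closed field `k` and an algebraically
closed extension `K` of `k`, `Φ` for the base change functor, and `P = h(X)` for a smooth projective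
variety `X` over `K`. The variety `X` is a fibre of a smooth projective family over a variety `U`
over `k`. Let `P₀ = h(X_s)` for a point `s` of `U` over `k`, and `M = h(Y)(-dim U - dim X)` for a
smooth projective compactification (in positive characteristic: an alteration) `Y` of the family
of the products `X_t × X_t`, `t ∈ U`. -/
structure Family {W : MotivicHomology C F} {W' : MotivicHomology C' F} {Φ : C ⥤ C'}
    (B : BaseChange W W' Φ) (P : C') where
  /-- the motive of the special fibre -/
  P₀ : C
  /-- the motive of the total space of the family `X_t × X_t` -/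
  M : C
  /-- restriction to the special fibre -/
  r : M ⟶ P₀ ⊗ P₀ᘁ
  /-- restriction to the given fibre -/
  b : Φ.obj M ⟶ P ⊗ Pᘁ
  /-- the specialisation isomorphism `H_*(X_s) = H_*(X)` -/
  sp : W.H.obj P₀ ≃ₗ[F] W'.H.obj P
  sp_gr : ∀ (j : ℤ) (x : W.H.obj P₀), x ∈ W.gr P₀ j ↔ sp x ∈ W'.gr P j
  /-- the restrictions of a cycle on the total space act in the same way on homology -/
  compat : Compatible B r b sp
  /-- the global invariant cycle theorem: every class on `X_s × X_s` which is invariant under the
  monodromy is the restriction of a class on the total space; for example, the classes of the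
  Künneth projectors -/
  invariant : KunnethLifts W r

/-- the structure of `Helper15` -/
def Family.toSpecialisation {W : MotivicHomology C F} {W' : MotivicHomology C' F} {Φ : C ⥤ C'}
    {B : BaseChange W W' Φ} {P : C'} (S : Family B P) :
    Pool.Agent.Helper15.MADR.Specialisation B P where
  P₀ := S.P₀
  M := S.M
  r := S.r
  b := S.b
  sp := S.sp
  sp_gr := S.sp_gr
  compat := S.compat
  invariant := S.invariant

end two

end Pool.Agent.Helper88.MADR
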