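import Pool.Agent.Helper88.MADR.Defs
import Pool.Agent.Helper88.MADR.Special

/-!
# Murre's conjectures over all fields of one characteristic: the setting
-/

open CategoryTheory MonoidalCategory Limits TensorProduct
open Pool.Agent.Helper15.Murre
open Pool.Agent.Helper58.MAD

universe w v u

namespace Pool.Agent.Helper88.MADR

/-- Murre's conjectures (A)-(D) for all motives, homological = numerical equivalence, and the
filtration on the Chow groups has length at most `r`. -/
def Holds {F : Type w} [Field F] (M : Motives.{w, v, u} F) (r : ℕ∞) : Prop :=
  Murre M.W ∧ HomEqNum M.W ∧ Length M.W r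

/-- `mot`, `mot'` are the motives over a field and over its algebraic closure. -/
def IsClosure {F : Type w} [Field F] (M M' : Motives.{w, v, u} F) : Prop :=
  ∃ Φ : M.C ⥤ M'.C, Nonempty (BaseChange M.W M'.W Φ) ∧ KunnethDescends M'.W Φ ∧
    NumbersDescend M.W Φ

/-- The smooth projective varieties over the algebraically closed field `K` (motives `M'`, the
variety `X` has the motive `h X`) have smooth projective models over the algebraically closed
field `k` (motives `M`), where `K` has transcendence degree `t` over `k`. -/
def HasModels {F : Type w} [Field F] (M M' : Motives.{w, v, u} F) {Var : Type u}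
    (h : Var → M'.C) (t : ℕ∞) : Prop :=
  ∃ (Φ : M.C ⥤ M'.C) (B : BaseChange M.W M'.W Φ), ∀ X : Var,
    Spreads B t (h X) ∧ Fibred B (h X) ∧ Nonempty (Family B (h X))

/-- The Chow motives over all fields of one characteristic. -/
structure Setting (F : Type w) [Field F] where
  /-- the fields -/
  Fld : Type u
  /-- the Chow motives over `K` -/
  mot : Fld → Motives.{w, v, u} F
  /-- the algebraic closure of the prime field -/
  base : Fld
  /-- the transcendence degree over the prime field -/
  trdeg : Fld → ℕ∞
  trdeg_base : trdeg base = 0
  /-- the smooth projective varieties over `K` -/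
  Var : Fld → Type u
  /-- the motive `h(X)` -/
  h : ∀ {K : Fld}, Var K → (mot K).C
  /-- every motive is a direct summand of some `h(X)(m)` -/
  generated : ∀ {K : Fld} (M : (mot K).C), ∃ (X : Var K) (m : ℤ),
    Nonempty (Retract M (h X ⊗ (mot K).W.T m))
  /-- the algebraically closed fields -/
  Closed : Fld → Prop
  /-- the algebraic closure of `K` -/
  closure : ∀ K : Fld, ∃ K' : Fld, Closed K' ∧ trdeg K' = trdeg K ∧ IsClosure (mot K) (mot K')
  /-- the varieties over `K` have models over the algebraic closure of the prime field -/
  models : ∀ K : Fld, Closed K → HasModels (mot base) (mot K) (h (K := K)) (trdeg K)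

end Pool.Agent.Helper88.MADR
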